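import Mathlib

set_option autoImplicit false

/-!
Sets of natural numbers of asymptotic density zero, in a purely arithmetical form.
-/

namespace Pool.Agent.Lib.MP_07734d_lc

open Set

open Classical in
/-- The elements of `B` below `M`. -/
noncomputable def cntSet (B : Set ℕ) (M : ℕ) : Finset ℕ := (Finset.range M).filter (fun n => n ∈ B)

/-- The number of elements of `B` below `M`. -/
noncomputable def cnt (B : Set ℕ) (M : ℕ) : ℕ := (cntSet B M).card

/-- `B` has asymptotic density zero. -/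
def DZ (B : Set ℕ) : Prop := ∀ k : ℕ, ∃ N, ∀ M, N ≤ M → k * cnt B M ≤ M

lemma mem_cntSet {B : Set ℕ} {M x : ℕ} : x ∈ cntSet B M ↔ x < M ∧ x ∈ B := by
  simp only [cntSet, Finset.mem_filter, Finset.mem_range]

lemma cnt_mono {B C : Set ℕ} {M : ℕ} (h : ∀ x, x < M → x ∈ B → x ∈ C) : cnt B M ≤ cnt C M := by
  apply Finset.card_le_card
  intro x hx
  rw [mem_cntSet] at hx ⊢
  exact ⟨hx.1, h x hx.1 hx.2⟩

lemma cnt_union (B C : Set ℕ) (M : ℕ) : cnt (B ∪ C) M ≤ cnt B M + cnt C M := by
  refine le_trans (Finset.card_le_card ?_) (Finset.card_union_le (cntSet B M) (cntSet C M))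
  intro x hx
  rw [mem_cntSet] at hx
  rw [Finset.mem_union, mem_cntSet, mem_cntSet]
  rcases hx.2 with h | h
  · exact Or.inl ⟨hx.1, h⟩
  · exact Or.inr ⟨hx.1, h⟩

lemma cnt_le_of_forall_lt {B : Set ℕ} {m : ℕ} (h : ∀ x ∈ B, x < m) (M : ℕ) : cnt B M ≤ m := by
  calc cnt B M ≤ (Finset.range m).card := by
        apply Finset.card_le_card
        intro x hx
        rw [mem_cntSet] at hx
        exact Finset.mem_range.mpr (h x hx.2)
    _ = m := Finset.card_range m

lemma cnt_le (B : Set ℕ) (M : ℕ) : cnt B M ≤ M := by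
  calc cnt B M ≤ (Finset.range M).card := by
        apply Finset.card_le_card
        intro x hx
        rw [mem_cntSet] at hx
        exact Finset.mem_range.mpr hx.1
    _ = M := Finset.card_range M

lemma DZ.mono {B C : Set ℕ} (hC : DZ C) (h : B ⊆ C) : DZ B := by
  intro k
  obtain ⟨N, hN⟩ := hC k
  exact ⟨N, fun M hM => (Nat.mul_le_mul_left k (cnt_mono fun x _ hx => h hx)).trans (hN M hM)⟩

lemma DZ.union {B C : Set ℕ} (hB : DZ B) (hC : DZ C) : DZ (B ∪ C) := by
  intro k
  obtain ⟨N, hN⟩ := hB (2 * k)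
  obtain ⟨N', hN'⟩ := hC (2 * k)
  refine ⟨max N N', fun M hM => ?_⟩
  have h1 := hN M (le_trans (le_max_left _ _) hM)
  have h2 := hN' M (le_trans (le_max_right _ _) hM)
  have h3 := Nat.mul_le_mul_left k (cnt_union B C M)
  nlinarith

lemma DZ_of_lt {B : Set ℕ} {m : ℕ} (h : ∀ x ∈ B, x < m) : DZ B := by
  intro k
  refine ⟨k * m, fun M hM => ?_⟩
  exact (Nat.mul_le_mul_left k (cnt_le_of_forall_lt h M)).trans hM

lemma DZ_of_finite {B : Set ℕ} (h : B.Finite) : DZ B := by
  obtain ⟨m, hm⟩ := h.bddAbove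
  exact DZ_of_lt (m := m + 1) fun x hx => Nat.lt_succ_of_le (hm hx)

lemma DZ_biUnion_lt {B : ℕ → Set ℕ} (h : ∀ n, DZ (B n)) (m : ℕ) : DZ (⋃ i, ⋃ (_ : i < m), B i) := by
  induction m with
  | zero => exact DZ_of_lt (m := 0) (by simp)
  | succ m ih =>
    refine (ih.union (h m)).mono ?_
    intro x hx
    simp only [mem_iUnion, exists_prop, mem_union] at hx ⊢
    obtain ⟨i, hi, hx⟩ := hx
    rcases Nat.lt_succ_iff_lt_or_eq.mp hi with h | h
    · exact Or.inl ⟨i, h, hx⟩
    · subst h; exact Or.inr hx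

/-- The sets of density zero form a P-ideal. -/
lemma DZ_pideal {B : ℕ → Set ℕ} (h : ∀ n, DZ (B n)) :
    ∃ C, DZ C ∧ ∀ n, ∃ m, ∀ x ∈ B n, x ∉ C → x < m := by
  -- thresholds
  have h1 : ∀ n, ∃ N, ∀ M, N ≤ M → (n + 1) * cnt (⋃ i, ⋃ (_ : i < n + 1), B i) M ≤ M :=
    fun n => DZ_biUnion_lt h (n + 1) (n + 1)
  choose N0 hN0 using h1
  let N : ℕ → ℕ := fun n => (∑ i ∈ Finset.range (n + 1), N0 i) + n
  have hN0N : ∀ n, N0 n ≤ N n := by
    intro n
    have : N0 n ≤ ∑ i ∈ Finset.range (n + 1), N0 i :=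
      Finset.single_le_sum (f := N0) (fun _ _ => Nat.zero_le _) (Finset.self_mem_range_succ n)
    show N0 n ≤ (∑ i ∈ Finset.range (n + 1), N0 i) + n
    omega
  have hNmono : StrictMono N := by
    apply strictMono_nat_of_lt_succ
    intro n
    show (∑ i ∈ Finset.range (n + 1), N0 i) + n < (∑ i ∈ Finset.range (n + 1 + 1), N0 i) + (n + 1)
    rw [Finset.sum_range_succ _ (n + 1)]
    omega
  refine ⟨⋃ n, (B n ∩ {x | N n ≤ x}), ?_, ?_⟩
  · intro k
    refine ⟨N k, fun M hM => ?_⟩
    -- find n with N n ≤ M < N (n+1)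
    obtain ⟨n, hn1, hn2⟩ : ∃ n, N n ≤ M ∧ M < N (n + 1) := by
      have hex : ∃ n, M < N n := ⟨M + 1, lt_of_lt_of_le (Nat.lt_succ_self M) hNmono.le_apply⟩
      classical
      let n := Nat.find hex
      have hn := Nat.find_spec hex
      have hn0 : n ≠ 0 := by
        intro h0
        have h2 : M < N 0 := by
          have := hn
          rwa [show Nat.find hex = 0 from h0] at this
        have h3 : N 0 ≤ N k := hNmono.monotone (Nat.zero_le k)
        omega
      obtain ⟨m, hm⟩ := Nat.exists_eq_succ_of_ne_zero hn0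
      refine ⟨m, ?_, ?_⟩
      · have := Nat.find_min hex (m := m) (by
          show m < n
          omega)
        omega
      · have h4 : Nat.find hex = m + 1 := hm
        rw [h4] at hn
        exact hn
    have hkn : k ≤ n := by
      by_contra hlt
      push Not at hlt
      have : N (n + 1) ≤ N k := hNmono.monotone hlt
      omega
    have h2 : cnt (⋃ n, (B n ∩ {x | N n ≤ x})) M ≤ cnt (⋃ i, ⋃ (_ : i < n + 1), B i) M := by
      apply cnt_mono
      intro x hxM hx
      simp only [mem_iUnion, mem_inter_iff, mem_ofPred_eq, exists_prop] at hx ⊢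
      obtain ⟨i, hxi, hix⟩ := hx
      refine ⟨i, ?_, hxi⟩
      by_contra hlt
      push Not at hlt
      have : N (n + 1) ≤ N i := hNmono.monotone hlt
      omega
    have h3 := hN0 n M ((hN0N n).trans hn1)
    calc k * cnt (⋃ n, (B n ∩ {x | N n ≤ x})) M
        ≤ (n + 1) * cnt (⋃ i, ⋃ (_ : i < n + 1), B i) M := Nat.mul_le_mul (by omega) h2
      _ ≤ M := h3
  · intro n
    refine ⟨N n, fun x hx hxC => ?_⟩
    by_contra hlt
    push Not at hlt
    exact hxC (mem_iUnion.mpr ⟨n, hx, hlt⟩)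

/-- Counting a residue class. -/
lemma cnt_residue (q r M : ℕ) (_hq : 0 < q) : q * cnt {x | x % q = r} M ≤ M + q := by
  have h2 : cnt {x | x % q = r} M ≤ M / q + 1 := by
    -- inject into range (M/q+1) through x ↦ x / q
    calc (cntSet {x | x % q = r} M).card
        ≤ (Finset.range (M / q + 1)).card := by
          apply Finset.card_le_card_of_injOn (fun x => x / q)
          · intro x hx
            have hx' : x < M ∧ x % q = r := mem_cntSet.mp (Finset.mem_coe.mp hx)
            rw [Finset.coe_range]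
            exact Nat.lt_succ_of_le (Nat.div_le_div_right hx'.1.le)
          · intro x hx y hy hxy
            have hx' : x < M ∧ x % q = r := mem_cntSet.mp (Finset.mem_coe.mp hx)
            have hy' : y < M ∧ y % q = r := mem_cntSet.mp (Finset.mem_coe.mp hy)
            have e1 := Nat.div_add_mod x q
            have e2 := Nat.div_add_mod y q
            have hxy' : x / q = y / q := hxy
            rw [hx'.2] at e1
            rw [hy'.2, ← hxy'] at e2
            omega
      _ = M / q + 1 := Finset.card_range _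
  have h3 := Nat.div_mul_le_self M q
  nlinarith

/-- A union of sparser and sparser pieces of residue classes, placed far apart, has
density zero. -/
lemma DZ_of_thin {F : ℕ → Set ℕ} {m r : ℕ → ℕ}
    (hlow : ∀ n, ∀ x ∈ F n, m n ≤ x)
    (hupp : ∀ n, ∀ x ∈ F n, (n + 1) * (x + 1) ≤ m (n + 1))
    (hm : ∀ n, (n + 1) * m n ≤ m (n + 1))
    (hpow : ∀ n, 2 ^ n ≤ m n)
    (hres : ∀ n, ∀ x ∈ F n, x % 2 ^ n = r n) : DZ (⋃ n, F n) := by
  have hmono : Monotone m := by
    apply monotone_nat_of_le_succ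
    intro n
    have := hm n
    nlinarith
  intro k
  refine ⟨m (4 * k + 1), fun M hM => ?_⟩
  obtain ⟨n, hn1, hn2⟩ : ∃ n, m n ≤ M ∧ M < m (n + 1) := by
    have hex : ∃ n, M < m n := by
      refine ⟨M + 1, ?_⟩
      have h1 := hpow (M + 1)
      have h2 : M + 1 < 2 ^ (M + 1) := Nat.lt_two_pow_self
      omega
    classical
    have hn := Nat.find_spec hex
    have hn0 : Nat.find hex ≠ 0 := by
      intro h0
      rw [h0] at hn
      have h3 : m 0 ≤ m (4 * k + 1) := hmono (Nat.zero_le _)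
      omega
    obtain ⟨l, hl⟩ := Nat.exists_eq_succ_of_ne_zero hn0
    refine ⟨l, ?_, ?_⟩
    · have := Nat.find_min hex (m := l) (by omega)
      omega
    · rw [hl] at hn
      exact hn
  have hkn : 4 * k + 1 ≤ n := by
    by_contra hlt
    push Not at hlt
    have : m (n + 1) ≤ m (4 * k + 1) := hmono hlt
    omega
  obtain ⟨l, rfl⟩ : ∃ l, n = l + 1 := ⟨n - 1, by omega⟩
  -- split at level n = l + 1
  have h1 : cnt (⋃ n, F n) M ≤
      cnt {x | (l + 1) * (x + 1) ≤ m (l + 1)} M + cnt {x | x % 2 ^ (l + 1) = r (l + 1)} M := by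
    refine (cnt_mono ?_).trans (cnt_union _ _ M)
    intro x hxM hx
    obtain ⟨i, hi⟩ := mem_iUnion.mp hx
    rcases lt_trichotomy i (l + 1) with h | h | h
    · left
      show (l + 1) * (x + 1) ≤ m (l + 1)
      rcases Nat.lt_succ_iff_lt_or_eq.mp h with h' | h'
      · -- i < l: x < m (i+1) ≤ m l
        have e1 := hupp i x hi
        have e2 : m (i + 1) ≤ m l := hmono h'
        have e3 := hm l
        have e4 : x + 1 ≤ m l := by nlinarith
        exact (Nat.mul_le_mul_left _ e4).trans e3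
      · subst h'
        exact hupp i x hi
    · subst h
      right
      exact hres _ x hi
    · exfalso
      have e1 := hlow i x hi
      have e2 : m (l + 1 + 1) ≤ m i := hmono h
      omega
  have h2 : (l + 1) * cnt {x | (l + 1) * (x + 1) ≤ m (l + 1)} M ≤ m (l + 1) := by
    have e1 : cnt {x | (l + 1) * (x + 1) ≤ m (l + 1)} M ≤ m (l + 1) / (l + 1) := by
      apply cnt_le_of_forall_lt
      intro x hx
      have hx' : (l + 1) * (x + 1) ≤ m (l + 1) := hx
      rw [← Nat.succ_le_iff, Nat.le_div_iff_mul_le (Nat.succ_pos l), mul_comm]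
      exact hx'
    calc (l + 1) * cnt {x | (l + 1) * (x + 1) ≤ m (l + 1)} M
        ≤ (l + 1) * (m (l + 1) / (l + 1)) := Nat.mul_le_mul_left _ e1
      _ ≤ m (l + 1) := Nat.mul_div_le _ _
  have h3 := cnt_residue (2 ^ (l + 1)) (r (l + 1)) M (by positivity)
  have h4 := hpow (l + 1)
  have h5 : l + 1 < 2 ^ (l + 1) := Nat.lt_two_pow_self
  have h6 : 2 ^ (l + 1) * cnt {x | x % 2 ^ (l + 1) = r (l + 1)} M ≤ 2 * M := by omega
  have h7 : (l + 1) * cnt {x | x % 2 ^ (l + 1) = r (l + 1)} M ≤ 2 * M :=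
    (Nat.mul_le_mul_right _ h5.le).trans h6
  have h8 : (l + 1) * cnt {x | (l + 1) * (x + 1) ≤ m (l + 1)} M ≤ M := h2.trans hn1
  have h9 : (l + 1) * cnt (⋃ n, F n) M ≤ 3 * M := by
    calc (l + 1) * cnt (⋃ n, F n) M ≤ (l + 1) * (cnt {x | (l + 1) * (x + 1) ≤ m (l + 1)} M +
          cnt {x | x % 2 ^ (l + 1) = r (l + 1)} M) := Nat.mul_le_mul_left _ h1
      _ ≤ 3 * M := by rw [mul_add]; omega
  have h10 : (4 * k) * cnt (⋃ n, F n) M ≤ 3 * M :=
    (Nat.mul_le_mul_right _ (by omega)).trans h9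
  have h11 : 4 * (k * cnt (⋃ n, F n) M) ≤ 3 * M := by rw [← mul_assoc]; exact h10
  omega

end Pool.Agent.Lib.MP_07734d_lc
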