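import Mathlib

set_option autoImplicit false

/-!
The Nikodym boundedness theorem for bounded finitely additive real-valued set functions on the
full power set of a type.
-/

namespace Pool.Agent.Lib.MP_07734d_lc

open Set

section PowerSet

variable {S : Type*}

/-- A bounded finitely additive function is small on all subsets of some member of any
pairwise disjoint sequence. -/
lemma exists_small_piece (ν : Set S → ℝ)
    (hadd : ∀ A B : Set S, Disjoint A B → ν (A ∪ B) = ν A + ν B)
    {V : ℝ} (hV : ∀ A, |ν A| ≤ V) (E : ℕ → Set S)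
    (hE : ∀ i j, i ≠ j → Disjoint (E i) (E j)) :
    ∃ l, ∀ D, D ⊆ E l → |ν D| ≤ 1 := by
  classical
  by_contra hcon
  push Not at hcon
  choose D hDsub hD using hcon
  have h0 : ν ∅ = 0 := by
    have := hadd ∅ ∅ (by simp)
    simp at this
    exact this
  have hDdisj : ∀ i j, i ≠ j → Disjoint (D i) (D j) := fun i j hij =>
    (hE i j hij).mono (hDsub i) (hDsub j)
  have hsum : ∀ s : Finset ℕ, ν (⋃ i ∈ s, D i) = ∑ i ∈ s, ν (D i) := by
    intro s
    induction s using Finset.induction_on with
    | empty => simp [h0]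
    | insert a s ha ih =>
      rw [Finset.set_biUnion_insert, Finset.sum_insert ha, hadd, ih]
      rw [Set.disjoint_iUnion₂_right]
      intro i hi
      exact hDdisj a i (by rintro rfl; exact ha hi)
  obtain ⟨N, hN⟩ := exists_nat_gt V
  -- among the first 2N indices at least N have the same sign
  let P := (Finset.range (2 * N)).filter (fun i => 0 < ν (D i))
  let Q := (Finset.range (2 * N)).filter (fun i => ¬ 0 < ν (D i))
  have hPQ : P.card + Q.card = 2 * N := by
    have := Finset.card_filter_add_card_filter_not (s := Finset.range (2 * N))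
      (fun i => 0 < ν (D i))
    simpa [P, Q] using this
  rcases le_or_gt N P.card with hP | hP
  · have h1 : (P.card : ℝ) ≤ ∑ i ∈ P, ν (D i) := by
      have : ∑ i ∈ P, (1 : ℝ) ≤ ∑ i ∈ P, ν (D i) := by
        apply Finset.sum_le_sum
        intro i hi
        have hpos : 0 < ν (D i) := (Finset.mem_filter.mp hi).2
        have := hD i
        rw [abs_of_pos hpos] at this
        exact this.le
      simpa using this
    have h2 : |ν (⋃ i ∈ P, D i)| ≤ V := hV _
    rw [hsum] at h2
    have h3 : (N : ℝ) ≤ P.card := by exact_mod_cast hP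
    have h4 := le_abs_self (∑ i ∈ P, ν (D i))
    linarith
  · have hQ : N ≤ Q.card := by omega
    have h1 : (Q.card : ℝ) ≤ ∑ i ∈ Q, -ν (D i) := by
      have : ∑ i ∈ Q, (1 : ℝ) ≤ ∑ i ∈ Q, -ν (D i) := by
        apply Finset.sum_le_sum
        intro i hi
        have hneg : ν (D i) ≤ 0 := not_lt.mp (Finset.mem_filter.mp hi).2
        have := hD i
        rw [abs_of_nonpos hneg] at this
        exact this.le
      simpa using this
    have h2 : |ν (⋃ i ∈ Q, D i)| ≤ V := hV _
    rw [hsum] at h2
    have h3 : (N : ℝ) ≤ Q.card := by exact_mod_cast hQ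
    have h4 := neg_abs_le (∑ i ∈ Q, ν (D i))
    rw [Finset.sum_neg_distrib] at h1
    linarith

/-- **Nikodym boundedness theorem** for power sets: a pointwise bounded sequence of bounded
finitely additive set functions on a power set is uniformly bounded. -/
theorem nikodym_powerset (μ : ℕ → Set S → ℝ)
    (hadd : ∀ k (A B : Set S), Disjoint A B → μ k (A ∪ B) = μ k A + μ k B)
    (hbdd : ∀ k, ∃ C, ∀ A, |μ k A| ≤ C)
    (hpt : ∀ A, ∃ C, ∀ k, |μ k A| ≤ C) :
    ∃ C, ∀ k A, |μ k A| ≤ C := by
  classical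
  by_contra hcon
  push Not at hcon
  choose V hV using hbdd
  choose B hB using hpt
  have hB0 : ∀ A, 0 ≤ B A := fun A => (abs_nonneg _).trans (hB A 0)
  have h0 : ∀ k, μ k ∅ = 0 := by
    intro k
    have := hadd k ∅ ∅ (by simp)
    simp at this
    exact this
  have hdiff : ∀ k (A E : Set S), A ⊆ E → μ k (E \ A) = μ k E - μ k A := by
    intro k A E hAE
    have := hadd k (E \ A) A disjoint_sdiff_left
    rw [sdiff_union_of_subset hAE] at this
    linarith
  let Unb : Set S → Prop := fun E => ∀ C : ℝ, ∃ k, ∃ A, A ⊆ E ∧ C < |μ k A|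
  have hUuniv : Unb univ := by
    intro C
    obtain ⟨k, A, h⟩ := hcon C
    exact ⟨k, A, subset_univ _, h⟩
  have hUsplit : ∀ A E : Set S, A ⊆ E → Unb E → Unb A ∨ Unb (E \ A) := by
    intro A E hAE hE
    by_contra hno
    push Not at hno
    obtain ⟨h1, h2⟩ := hno
    simp only [Unb] at h1 h2
    push Not at h1 h2
    obtain ⟨C1, h1⟩ := h1
    obtain ⟨C2, h2⟩ := h2
    obtain ⟨k, D, hD, hlt⟩ := hE (C1 + C2)
    have e1 : μ k D = μ k (D ∩ A) + μ k (D \ A) := by
      rw [← hadd k (D ∩ A) (D \ A) disjoint_inf_sdiff, inter_union_sdiff]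
    have e2 := h1 k (D ∩ A) inter_subset_right
    have e3 := h2 k (D \ A) (sdiff_subset_sdiff_left hD)
    rw [e1] at hlt
    have := abs_add_le (μ k (D ∩ A)) (μ k (D \ A))
    linarith
  have hstep : ∀ (E : Set S), Unb E → ∀ p : ℝ, ∃ k, ∃ A, A ⊆ E ∧ p < |μ k A| ∧ Unb (E \ A) := by
    intro E hE p
    obtain ⟨k, A, hAE, hlt⟩ := hE (p + B E)
    rcases hUsplit A E hAE hE with h | h
    · refine ⟨k, E \ A, sdiff_subset, ?_, ?_⟩
      · rw [hdiff k A E hAE]
        have h1 := hB E k
        have h2 : |μ k A| ≤ |μ k E - μ k A| + |μ k E| := by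
          have := abs_sub_abs_le_abs_sub (μ k A) (μ k E)
          rw [abs_sub_comm] at this
          linarith
        linarith
      · rwa [sdiff_sdiff_cancel_left hAE]
    · exact ⟨k, A, hAE, by linarith [hB0 E], h⟩
  choose! K A hAsub hAlt hAunb using hstep
  -- the recursion: state = (unbounded set, running sum)
  let nxt : ℕ → Set S × ℝ → Set S × ℝ := fun n p =>
    (p.1 \ A p.1 (n + p.2), p.2 + B (A p.1 (n + p.2)))
  let st : ℕ → Set S × ℝ := fun n => Nat.rec (univ, 0) nxt n
  have st_succ : ∀ n, st (n + 1) = nxt n (st n) := fun n => rfl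
  have st_unb : ∀ n, Unb (st n).1 := by
    intro n
    induction n with
    | zero => exact hUuniv
    | succ n ih =>
      rw [st_succ]
      exact hAunb _ ih _
  let a : ℕ → Set S := fun n => A (st n).1 (n + (st n).2)
  let κ : ℕ → ℕ := fun n => K (st n).1 (n + (st n).2)
  have ha_sub : ∀ n, a n ⊆ (st n).1 := fun n => hAsub _ (st_unb n) _
  have ha_lt : ∀ n, n + (st n).2 < |μ (κ n) (a n)| := fun n => hAlt _ (st_unb n) _
  have st1_succ : ∀ n, (st (n + 1)).1 = (st n).1 \ a n := fun n => rfl
  have st2_succ : ∀ n, (st (n + 1)).2 = (st n).2 + B (a n) := fun n => rfl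
  have st2_sum : ∀ n, (st n).2 = ∑ j ∈ Finset.range n, B (a j) := by
    intro n
    induction n with
    | zero => rfl
    | succ n ih => rw [st2_succ, Finset.sum_range_succ, ih]
  have st1_anti : Antitone (fun n => (st n).1) := by
    apply antitone_nat_of_succ_le
    intro n
    rw [st1_succ]
    exact sdiff_subset
  have ha_disj' : ∀ m n, m < n → Disjoint (a m) (a n) := by
    intro m n hmn
    have h1 : a n ⊆ (st (m + 1)).1 := (ha_sub n).trans (st1_anti hmn)
    rw [st1_succ] at h1
    exact disjoint_left.mpr fun x hx hx' => (h1 hx').2 hx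
  have ha_disj : ∀ m n, m ≠ n → Disjoint (a m) (a n) := by
    intro m n hmn
    rcases lt_or_gt_of_ne hmn with h | h
    · exact ha_disj' m n h
    · exact (ha_disj' n m h).symm
  -- thinning out
  have hthin : ∀ e : ℕ → ℕ, StrictMono e → ∃ e' : ℕ → ℕ, StrictMono e' ∧
      range e' ⊆ range (fun i => e (i + 1)) ∧
      ∀ D, D ⊆ (⋃ n ∈ range e', a n) → |μ (κ (e 0)) D| ≤ 1 := by
    intro e he
    obtain ⟨l, hl⟩ := exists_small_piece (μ (κ (e 0))) (hadd _) (hV _)
      (fun l => ⋃ j, a (e (Nat.pair l j + 1))) (by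
        intro i j hij
        rw [Set.disjoint_iUnion_left]
        intro p
        rw [Set.disjoint_iUnion_right]
        intro q
        apply ha_disj
        intro h
        have := he.injective h
        have h2 : Nat.pair i p = Nat.pair j q := by omega
        rw [Nat.pair_eq_pair] at h2
        exact hij h2.1)
    refine ⟨fun j => e (Nat.pair l j + 1), ?_, ?_, ?_⟩
    · intro i j hij
      apply he
      have := Nat.pair_lt_pair_right l hij
      omega
    · rintro _ ⟨j, rfl⟩
      exact ⟨Nat.pair l j, rfl⟩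
    · intro D hD
      apply hl
      refine hD.trans ?_
      intro x hx
      simp only [mem_iUnion, mem_range, exists_prop] at hx ⊢
      obtain ⟨n, ⟨j, rfl⟩, hx⟩ := hx
      exact ⟨j, hx⟩
  choose! T hTmono hTsub hTsmall using hthin
  let e : ℕ → ℕ → ℕ := fun i => Nat.rec id (fun _ f => T f) i
  have e_succ : ∀ i, e (i + 1) = T (e i) := fun i => rfl
  have e_mono : ∀ i, StrictMono (e i) := by
    intro i
    induction i with
    | zero => exact strictMono_id
    | succ i ih => rw [e_succ]; exact hTmono _ ih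
  let n : ℕ → ℕ := fun i => e i 0
  have e_range : ∀ i, range (e (i + 1)) ⊆ range (fun j => e i (j + 1)) := by
    intro i
    rw [e_succ]
    exact hTsub _ (e_mono i)
  have e_range_anti : Antitone (fun i => range (e i)) := by
    apply antitone_nat_of_succ_le
    intro i
    refine (e_range i).trans ?_
    rintro _ ⟨j, rfl⟩
    exact ⟨j + 1, rfl⟩
  have n_mem : ∀ i j, i < j → n j ∈ range (e (i + 1)) := by
    intro i j hij
    exact e_range_anti (show i + 1 ≤ j from hij) ⟨0, rfl⟩
  have n_mono : StrictMono n := by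
    apply strictMono_nat_of_lt_succ
    intro i
    obtain ⟨j, hj⟩ := e_range i ⟨0, rfl⟩
    show e i 0 < e (i + 1) 0
    rw [← hj]
    exact e_mono i (Nat.succ_pos j)
  -- the final set
  obtain ⟨i, hi⟩ := exists_nat_gt (B (⋃ i, a (n i)) + 1)
  have hdec : (⋃ i, a (n i)) = (⋃ j ∈ Finset.range i, a (n j)) ∪
      (a (n i) ∪ ⋃ j, ⋃ (_ : i < j), a (n j)) := by
    ext x
    simp only [mem_iUnion, mem_union, Finset.mem_range, exists_prop]
    constructor
    · rintro ⟨j, hj⟩
      rcases lt_trichotomy j i with h | h | h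
      · exact Or.inl ⟨j, h, hj⟩
      · subst h; exact Or.inr (Or.inl hj)
      · exact Or.inr (Or.inr ⟨j, h, hj⟩)
    · rintro (⟨j, _, hj⟩ | hj | ⟨j, _, hj⟩)
      · exact ⟨j, hj⟩
      · exact ⟨i, hj⟩
      · exact ⟨j, hj⟩
  have hd1 : Disjoint (a (n i)) (⋃ j, ⋃ (_ : i < j), a (n j)) := by
    rw [Set.disjoint_iUnion₂_right]
    intro j hj
    exact ha_disj _ _ (n_mono hj).ne
  have hd2 : Disjoint (⋃ j ∈ Finset.range i, a (n j))
      (a (n i) ∪ ⋃ j, ⋃ (_ : i < j), a (n j)) := by
    rw [Set.disjoint_iUnion₂_left]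
    intro j hj
    have hji : j < i := Finset.mem_range.mp hj
    rw [Set.disjoint_union_right]
    refine ⟨ha_disj _ _ (n_mono hji).ne, ?_⟩
    rw [Set.disjoint_iUnion₂_right]
    intro l hl
    exact ha_disj _ _ (n_mono (hji.trans hl)).ne
  have hval := hB (⋃ i, a (n i)) (κ (n i))
  rw [hdec, hadd _ _ _ hd2, hadd _ _ _ hd1, ← hdec] at hval
  have hsmall : |μ (κ (n i)) (⋃ j, ⋃ (_ : i < j), a (n j))| ≤ 1 := by
    apply hTsmall (e i) (e_mono i)
    intro x hx
    simp only [mem_iUnion, exists_prop] at hx ⊢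
    obtain ⟨j, hij, hx⟩ := hx
    exact ⟨n j, n_mem i j hij, hx⟩
  have hinit : |μ (κ (n i)) (⋃ j ∈ Finset.range i, a (n j))| ≤ (st (n i)).2 := by
    have h1 : ∀ s : Finset ℕ, (∀ j ∈ s, j < i) →
        |μ (κ (n i)) (⋃ j ∈ s, a (n j))| ≤ ∑ j ∈ s, B (a (n j)) := by
      intro s
      induction s using Finset.induction_on with
      | empty => intro _; simp [h0]
      | insert b s hb ih =>
        intro hs
        rw [Finset.set_biUnion_insert, Finset.sum_insert hb, hadd]
        · have h2 := ih (fun j hj => hs j (Finset.mem_insert_of_mem hj))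
          have h3 := hB (a (n b)) (κ (n i))
          exact (abs_add_le _ _).trans (by linarith)
        · rw [Set.disjoint_iUnion₂_right]
          intro j hj
          apply ha_disj
          intro h
          have := n_mono.injective h
          subst this
          exact hb hj
    refine (h1 (Finset.range i) (fun j hj => Finset.mem_range.mp hj)).trans ?_
    rw [st2_sum]
    have h2 : ∑ j ∈ Finset.range i, B (a (n j)) =
        ∑ m ∈ (Finset.range i).image n, B (a m) := by
      rw [Finset.sum_image]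
      intro x _ y _ hxy
      exact n_mono.injective hxy
    rw [h2]
    apply Finset.sum_le_sum_of_subset_of_nonneg
    · intro m hm
      obtain ⟨j, hj, rfl⟩ := Finset.mem_image.mp hm
      exact Finset.mem_range.mpr (n_mono (Finset.mem_range.mp hj))
    · intro m _ _
      exact hB0 _
  have hbig := ha_lt (n i)
  have hni' : i ≤ n i := n_mono.le_apply
  have hni := (Nat.cast_le (α := ℝ)).mpr hni'
  have key : |μ (κ (n i)) (a (n i))| ≤
      |μ (κ (n i)) (⋃ j ∈ Finset.range i, a (n j)) + (μ (κ (n i)) (a (n i)) +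
        μ (κ (n i)) (⋃ j, ⋃ (_ : i < j), a (n j)))| +
      |μ (κ (n i)) (⋃ j ∈ Finset.range i, a (n j))| +
      |μ (κ (n i)) (⋃ j, ⋃ (_ : i < j), a (n j))| := by
    set x := μ (κ (n i)) (⋃ j ∈ Finset.range i, a (n j))
    set y := μ (κ (n i)) (a (n i))
    set z := μ (κ (n i)) (⋃ j, ⋃ (_ : i < j), a (n j))
    have : y = (x + (y + z)) - x - z := by ring
    calc |y| = |(x + (y + z)) - x - z| := by rw [← this]
      _ ≤ |(x + (y + z)) - x| + |z| := abs_sub _ _
      _ ≤ |x + (y + z)| + |x| + |z| := by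
        have := abs_sub (x + (y + z)) x
        linarith
  linarith

end PowerSet

end Pool.Agent.Lib.MP_07734d_lc
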