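import Mathlib
import Pool.Agent.Lib.MP_07734d_lc.PowerSet
import Pool.Agent.Lib.MP_07734d_lc.DensityZero

set_option autoImplicit false

/-!
The Fubini product of the density zero ideal with an arbitrary ideal has the Nikodym
boundedness property.
-/

namespace Pool.Agent.Lib.MP_07734d_lc

open Set

/-- The `n`-th vertical section of a subset of `ℕ`, where `ℕ` is identified with `ℕ × ℕ`. -/
def sec (A : Set ℕ) (n : ℕ) : Set ℕ := {m | Nat.pair n m ∈ A}

/-- The union of all columns with index in `B`. -/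
def col (B : Set ℕ) : Set ℕ := {a | (Nat.unpair a).1 ∈ B}

/-- The Fubini product of the density zero ideal with `K`. -/
def FJ (K : Set ℕ → Prop) (A : Set ℕ) : Prop := DZ {n | ¬ K (sec A n)}

section

variable {K : Set ℕ → Prop}

lemma FJ_mono (Kmono : ∀ A B, A ⊆ B → K B → K A) {A B : Set ℕ} (hB : FJ K B) (h : A ⊆ B) :
    FJ K A := by
  refine DZ.mono hB ?_
  intro n hn hn'
  exact hn (Kmono (sec A n) (sec B n) (fun m hm => h hm) hn')

lemma FJ_union (Kunion : ∀ A B, K A → K B → K (A ∪ B)) {A B : Set ℕ}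
    (hA : FJ K A) (hB : FJ K B) : FJ K (A ∪ B) := by
  refine DZ.mono (DZ.union hA hB) ?_
  intro n hn
  by_contra hno
  rw [mem_union, not_or] at hno
  have h1 : K (sec A n) := by by_contra h; exact hno.1 h
  have h2 : K (sec B n) := by by_contra h; exact hno.2 h
  exact hn (Kunion _ _ h1 h2)

lemma FJ_col (K0 : K ∅) {B : Set ℕ} (hB : DZ B) : FJ K (col B) := by
  refine DZ.mono hB ?_
  intro n hn
  by_contra hnB
  apply hn
  have : sec (col B) n = ∅ := by
    ext m
    simp only [sec, col, mem_ofPred_eq, Nat.unpair_pair, mem_empty_iff_false, iff_false]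
    exact hnB
  rw [this]
  exact K0

lemma FJ_of_forall {A : Set ℕ} (h : ∀ n, K (sec A n)) : FJ K A := by
  refine DZ_of_lt (m := 0) ?_
  intro n hn
  exact absurd (h n) hn

/-- **Main lemma.** The Fubini product of the density zero ideal with any ideal has the
Nikodym boundedness property. -/
theorem nikodym_fubini (K0 : K ∅) (Kmono : ∀ A B, A ⊆ B → K B → K A)
    (Kunion : ∀ A B, K A → K B → K (A ∪ B)) (μ : ℕ → Set ℕ → ℝ)
    (hadd : ∀ k A B, FJ K A → FJ K B → Disjoint A B → μ k (A ∪ B) = μ k A + μ k B)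
    (hbdd : ∀ k, ∃ C, ∀ A, FJ K A → |μ k A| ≤ C)
    (hpt : ∀ A, FJ K A → ∃ C, ∀ k, |μ k A| ≤ C) :
    ∃ C, ∀ k A, FJ K A → |μ k A| ≤ C := by
  classical
  -- uniform boundedness below a fixed member
  have hbelow : ∀ E, FJ K E → ∃ C, ∀ k, ∀ A, A ⊆ E → |μ k A| ≤ C := by
    intro E hE
    have hm : ∀ X, FJ K (E ∩ X) := fun X => FJ_mono Kmono hE inter_subset_left
    obtain ⟨C, hC⟩ := nikodym_powerset (fun k X => μ k (E ∩ X))
      (by
        intro k A B hAB
        show μ k (E ∩ (A ∪ B)) = μ k (E ∩ A) + μ k (E ∩ B)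
        rw [inter_union_distrib_left]
        exact hadd k _ _ (hm A) (hm B) (hAB.mono inter_subset_right inter_subset_right))
      (by
        intro k
        obtain ⟨C, hC⟩ := hbdd k
        exact ⟨C, fun A => hC _ (hm A)⟩)
      (fun A => hpt _ (hm A))
    refine ⟨C, fun k A hA => ?_⟩
    have h1 : |μ k (E ∩ A)| ≤ C := hC k A
    rwa [inter_eq_self_of_subset_right hA] at h1
  by_contra hcon
  push Not at hcon
  -- Step 1: unboundedness on subsets of finitely many columns
  have hfin : ∀ C : ℝ, ∃ k m A, A ⊆ col (Iio m) ∧ C < |μ k A| := by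
    have h1 : ∀ n : ℕ, ∃ k A, FJ K A ∧ (n : ℝ) < |μ k A| := fun n => by
      obtain ⟨k, A, hA, h⟩ := hcon n
      exact ⟨k, A, hA, h⟩
    choose κ A hA hlt using h1
    obtain ⟨B, hB, hBfin⟩ := DZ_pideal hA
    choose f hf using hBfin
    -- the part with sections in K
    let G : ℕ → Set ℕ := fun n => A n \ col {i | ¬ K (sec (A n) i)}
    have hG : ∀ n i, K (sec (G n) i) := by
      intro n i
      by_cases hi : K (sec (A n) i)
      · exact Kmono _ _ (fun m hm => hm.1) hi
      · have : sec (G n) i = ∅ := by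
          ext m
          simp only [sec, G, col, mem_ofPred_eq, mem_sdiff, Nat.unpair_pair,
            mem_empty_iff_false, iff_false, not_and, not_not]
          intro _
          exact hi
        rw [this]
        exact K0
    let H : Set ℕ := ⋃ n, (G n ∩ col (Ici n))
    have hH : FJ K H := by
      apply FJ_of_forall
      intro i
      -- the i-th section is covered by the sections of G 0, ..., G i
      have key : ∀ j, K (⋃ n, ⋃ (_ : n < j), sec (G n) i) := by
        intro j
        induction j with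
        | zero => simpa using K0
        | succ j ih =>
          refine Kmono _ _ ?_ (Kunion _ _ ih (hG j i))
          intro m hm
          simp only [mem_iUnion, exists_prop, mem_union] at hm ⊢
          obtain ⟨n, hn, hm⟩ := hm
          rcases Nat.lt_succ_iff_lt_or_eq.mp hn with h | h
          · exact Or.inl ⟨n, h, hm⟩
          · subst h; exact Or.inr hm
      refine Kmono _ _ ?_ (key (i + 1))
      intro m hm
      simp only [sec, H, mem_iUnion, mem_inter_iff, mem_ofPred_eq, col, Nat.unpair_pair,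
        mem_Ici] at hm
      obtain ⟨n, hn1, hn2⟩ := hm
      simp only [mem_iUnion, exists_prop]
      exact ⟨n, Nat.lt_succ_of_le hn2, hn1⟩
    have hE : FJ K (H ∪ col B) := FJ_union Kunion hH (FJ_col K0 hB)
    obtain ⟨C0, hC0⟩ := hbelow _ hE
    intro C
    obtain ⟨n, hn⟩ := exists_nat_gt (C + C0)
    refine ⟨κ n, max n (f n), A n \ (H ∪ col B), ?_, ?_⟩
    · intro x hx
      obtain ⟨hxA, hxn⟩ := hx
      rw [mem_union, not_or] at hxn
      simp only [col, mem_ofPred_eq, mem_Iio]
      by_cases hxG : x ∈ G n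
      · have : ¬ (n ≤ (Nat.unpair x).1) := by
          intro hle
          apply hxn.1
          exact mem_iUnion.mpr ⟨n, hxG, hle⟩
        exact lt_of_lt_of_le (not_le.mp this) (le_max_left _ _)
      · have h2 : ¬ K (sec (A n) (Nat.unpair x).1) := by
          by_contra hK
          apply hxG
          refine ⟨hxA, ?_⟩
          intro hc
          exact hc hK
        exact lt_of_lt_of_le (hf n _ h2 hxn.2) (le_max_right _ _)
    · have e1 : μ (κ n) (A n) = μ (κ n) (A n ∩ (H ∪ col B)) + μ (κ n) (A n \ (H ∪ col B)) := by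
        rw [← hadd (κ n) (A n ∩ (H ∪ col B)) (A n \ (H ∪ col B))
          (FJ_mono Kmono (hA n) inter_subset_left) (FJ_mono Kmono (hA n) sdiff_subset)
          disjoint_inf_sdiff, inter_union_sdiff]
      have e2 := hC0 (κ n) (A n ∩ (H ∪ col B)) inter_subset_right
      have e3 := hlt n
      rw [e1] at e3
      have e4 := abs_add_le (μ (κ n) (A n ∩ (H ∪ col B))) (μ (κ n) (A n \ (H ∪ col B)))
      linarith
  have hfincol : ∀ m, FJ K (col (Iio m)) := fun m => FJ_col K0 (DZ_of_lt (m := m) fun x hx => hx)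
  -- Step 2: thinning step
  have hstep : ∀ m n : ℕ, ∃ k m' r A, A ⊆ col {x | m ≤ x ∧ (n + 1) * (x + 1) ≤ m' ∧ x % 2 ^ n = r} ∧
      (n : ℝ) < |μ k A| ∧ (n + 1) * m ≤ m' ∧ 2 ^ (n + 1) ≤ m' := by
    intro m n
    obtain ⟨C, hC⟩ := hbelow _ (hfincol m)
    obtain ⟨k, p, A, hA, hlt⟩ := hfin (n * 2 ^ n + C)
    have hAJ : FJ K A := FJ_mono Kmono (hfincol p) hA
    let A' := A \ col (Iio m)
    have hA'lt : (n : ℝ) * 2 ^ n < |μ k A'| := by
      have e1 : μ k A = μ k (A ∩ col (Iio m)) + μ k A' := by
        rw [← hadd k (A ∩ col (Iio m)) A'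
          (FJ_mono Kmono hAJ inter_subset_left) (FJ_mono Kmono hAJ sdiff_subset)
          disjoint_inf_sdiff, inter_union_sdiff]
      have e2 := hC k (A ∩ col (Iio m)) inter_subset_right
      rw [e1] at hlt
      have e4 := abs_add_le (μ k (A ∩ col (Iio m))) (μ k A')
      linarith
    have hA'J : FJ K A' := FJ_mono Kmono hAJ sdiff_subset
    -- split into residue classes
    have hsplit : ∀ j, μ k (A' ∩ col {x | x % 2 ^ n < j}) =
        ∑ r ∈ Finset.range j, μ k (A' ∩ col {x | x % 2 ^ n = r}) := by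
      intro j
      induction j with
      | zero =>
        have h0 : μ k ∅ = 0 := by
          have hJ0 : FJ K ∅ := FJ_mono Kmono hAJ (empty_subset _)
          have := hadd k ∅ ∅ hJ0 hJ0 (by simp)
          simp at this
          exact this
        simp [col, h0]
      | succ j ih =>
        rw [Finset.sum_range_succ, ← ih, ← hadd k]
        · congr 1
          ext x
          simp only [mem_inter_iff, mem_union, col, mem_ofPred_eq]
          constructor
          · rintro ⟨h1, h2⟩
            rcases Nat.lt_succ_iff_lt_or_eq.mp h2 with h | h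
            · exact Or.inl ⟨h1, h⟩
            · exact Or.inr ⟨h1, h⟩
          · rintro (⟨h1, h2⟩ | ⟨h1, h2⟩)
            · exact ⟨h1, by omega⟩
            · exact ⟨h1, by omega⟩
        · exact FJ_mono Kmono hA'J inter_subset_left
        · exact FJ_mono Kmono hA'J inter_subset_left
        · rw [Set.disjoint_left]
          rintro x ⟨_, h1⟩ ⟨_, h2⟩
          simp only [col, mem_ofPred_eq] at h1 h2
          omega
    have hall : A' ∩ col {x | x % 2 ^ n < 2 ^ n} = A' := by
      ext x
      simp only [mem_inter_iff, col, mem_ofPred_eq, and_iff_left_iff_imp]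
      intro _
      exact Nat.mod_lt _ (by positivity)
    have hsum := hsplit (2 ^ n)
    rw [hall] at hsum
    have hex : ∃ r ∈ Finset.range (2 ^ n), (n : ℝ) < |μ k (A' ∩ col {x | x % 2 ^ n = r})| := by
      by_contra hno
      push Not at hno
      have e1 : |μ k A'| ≤ ∑ r ∈ Finset.range (2 ^ n), (n : ℝ) := by
        rw [hsum]
        exact (Finset.abs_sum_le_sum_abs _ _).trans (Finset.sum_le_sum hno)
      rw [Finset.sum_const, Finset.card_range, nsmul_eq_mul] at e1
      push_cast at e1
      linarith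
    obtain ⟨r, _, hr⟩ := hex
    refine ⟨k, (n + 1) * (p + 1) + (n + 1) * m + 2 ^ (n + 1), r,
      A' ∩ col {x | x % 2 ^ n = r}, ?_, hr, ?_, ?_⟩
    · intro x hx
      obtain ⟨⟨hx1, hx2⟩, hx3⟩ := hx
      have hx4 := hA hx1
      simp only [col, mem_ofPred_eq, mem_Iio, not_lt] at hx2 hx3 hx4 ⊢
      refine ⟨hx2, ?_, hx3⟩
      have : (n + 1) * ((Nat.unpair x).1 + 1) ≤ (n + 1) * (p + 1) :=
        Nat.mul_le_mul_left _ (by omega)
      omega
    · exact (Nat.le_add_left _ _).trans (Nat.le_add_right _ _)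
    · exact Nat.le_add_left _ _
  choose κ mm rr AA hAA1 hAA2 hAA3 hAA4 using hstep
  -- the recursion
  let m : ℕ → ℕ := fun n => Nat.rec 1 (fun n p => mm p n) n
  have m_succ : ∀ n, m (n + 1) = mm (m n) n := fun n => rfl
  have hm1 : ∀ n, (n + 1) * m n ≤ m (n + 1) := fun n => by rw [m_succ]; exact hAA3 _ _
  have hm2 : ∀ n, 2 ^ n ≤ m n := by
    intro n
    cases n with
    | zero => exact le_refl 1
    | succ n => rw [m_succ]; exact hAA4 _ _
  let F : ℕ → Set ℕ := fun n =>
    {x | m n ≤ x ∧ (n + 1) * (x + 1) ≤ mm (m n) n ∧ x % 2 ^ n = rr (m n) n}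
  have hF : DZ (⋃ n, F n) := by
    apply DZ_of_thin (m := m) (r := fun n => rr (m n) n)
    · intro n x hx; exact hx.1
    · intro n x hx; rw [m_succ]; exact hx.2.1
    · exact hm1
    · exact hm2
    · intro n x hx; exact hx.2.2
  obtain ⟨C, hC⟩ := hbelow _ (FJ_col K0 hF)
  obtain ⟨n, hn⟩ := exists_nat_gt C
  have h1 := hC (κ (m n) n) (AA (m n) n) ((hAA1 (m n) n).trans (by
    intro x hx
    exact mem_iUnion.mpr ⟨n, hx⟩))
  have h2 := hAA2 (m n) n
  linarith

end

end Pool.Agent.Lib.MP_07734d_lc
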