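import Mathlib

set_option autoImplicit false

/-!
The set of all sequences of natural numbers which do not tend to infinity is not an
F-sigma-delta subset of the Baire space.
-/

namespace Pool.Agent.Lib.MP_07734d_lc

open Set Filter Topology

/-- Sequences which agree with `a` below `n` and are at least `N` from `n` on. -/
def TT (N : ℕ) (a : ℕ → ℕ) (n : ℕ) : Set (ℕ → ℕ) :=
  {b | (∀ i, i < n → b i = a i) ∧ ∀ i, n ≤ i → N ≤ b i}

/-- A neighbourhood of a point contains a cylinder around it. -/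
lemma exists_cylinder {U : Set (ℕ → ℕ)} (hU : IsOpen U) {a : ℕ → ℕ} (ha : a ∈ U) :
    ∃ n, ∀ b : ℕ → ℕ, (∀ i, i < n → b i = a i) → b ∈ U := by
  rw [isOpen_pi_iff] at hU
  obtain ⟨I, u, h1, h2⟩ := hU a ha
  refine ⟨I.sup id + 1, fun b hb => h2 ?_⟩
  intro i hi
  have h3 : i ≤ I.sup id := Finset.le_sup (f := id) hi
  rw [hb i (Nat.lt_succ_of_le h3)]
  exact (h1 i hi).2

/-- Inner step: a `G_δ` set all of whose members tend to infinity misses some smaller tree. -/
lemma inner_step {U : ℕ → Set (ℕ → ℕ)} (hU : ∀ j, IsOpen (U j))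
    (hG : ∀ a, (∀ j, a ∈ U j) → Tendsto a atTop atTop) (N : ℕ) (a : ℕ → ℕ) (n : ℕ) :
    ∃ a' n', n ≤ n' ∧ a' ∈ TT N a n ∧ ∀ b ∈ TT N a' n', ¬ ∀ j, b ∈ U j := by
  by_contra hcon
  push Not at hcon
  -- one step of the construction
  have hstep : ∀ (j : ℕ) (p : {p : (ℕ → ℕ) × ℕ // n ≤ p.2 ∧ p.1 ∈ TT N a n}),
      ∃ q : {p : (ℕ → ℕ) × ℕ // n ≤ p.2 ∧ p.1 ∈ TT N a n},
        p.1.2 < q.1.2 ∧ (∀ i, i < p.1.2 → q.1.1 i = p.1.1 i) ∧
        (∀ b, (∀ i, i < q.1.2 → b i = q.1.1 i) → b ∈ U j) ∧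
        ∃ i, p.1.2 ≤ i ∧ i < q.1.2 ∧ q.1.1 i = N := by
    intro j p
    obtain ⟨⟨a', n'⟩, hn', ha'⟩ := p
    obtain ⟨b, hb, hbU⟩ := hcon a' n' hn' ha'
    obtain ⟨l, hl⟩ := exists_cylinder (hU j) (hbU j)
    let l' := max l n'
    let c : ℕ → ℕ := fun i => if i < l' then b i else N
    refine ⟨⟨(c, l' + 1), ?_, ?_⟩, ?_, ?_, ?_, ?_⟩
    · have : n' ≤ l' := le_max_right _ _
      show n ≤ l' + 1
      simp only at hn'
      omega
    · constructor
      · intro i hi
        have h1 : i < n' := lt_of_lt_of_le hi hn'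
        have h2 : i < l' := lt_of_lt_of_le h1 (le_max_right _ _)
        show (if i < l' then b i else N) = a i
        rw [if_pos h2, hb.1 i h1]
        exact ha'.1 i hi
      · intro i hi
        show N ≤ (if i < l' then b i else N)
        split_ifs with h
        · by_cases h2 : i < n'
          · rw [hb.1 i h2]
            exact ha'.2 i hi
          · exact hb.2 i (not_lt.mp h2)
        · exact le_rfl
    · show n' < l' + 1
      have : n' ≤ l' := le_max_right _ _
      omega
    · intro i hi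
      have h2 : i < l' := lt_of_lt_of_le hi (le_max_right _ _)
      show (if i < l' then b i else N) = a' i
      rw [if_pos h2]
      exact hb.1 i hi
    · intro d hd
      apply hl
      intro i hi
      have h2 : i < l' := lt_of_lt_of_le hi (le_max_left _ _)
      have h3 : d i = (if i < l' then b i else N) := hd i (by
        show i < l' + 1
        omega)
      rw [h3, if_pos h2]
    · refine ⟨l', le_max_right _ _, Nat.lt_succ_self _, ?_⟩
      show (if l' < l' then b l' else N) = N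
      rw [if_neg (lt_irrefl _)]
  choose nx h1 h2 h3 h4 using hstep
  -- a starting point
  let a0 : ℕ → ℕ := fun i => if i < n then a i else N
  have ha0 : a0 ∈ TT N a n := by
    constructor
    · intro i hi
      show (if i < n then a i else N) = a i
      rw [if_pos hi]
    · intro i hi
      show N ≤ (if i < n then a i else N)
      rw [if_neg (not_lt.mpr hi)]
  let p : ℕ → {p : (ℕ → ℕ) × ℕ // n ≤ p.2 ∧ p.1 ∈ TT N a n} := fun j =>
    Nat.rec ⟨(a0, n), le_rfl, ha0⟩ (fun j p => nx j p) j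
  have hp : ∀ j, p (j + 1) = nx j (p j) := fun j => rfl
  have hlen : StrictMono (fun j => (p j).1.2) := by
    apply strictMono_nat_of_lt_succ
    intro j
    rw [hp]
    exact h1 j (p j)
  have hagree1 : ∀ j i, i < (p j).1.2 → (p (j + 1)).1.1 i = (p j).1.1 i := by
    intro j i hi
    rw [hp]
    exact h2 j (p j) i hi
  have hagree : ∀ j k i, j ≤ k → i < (p j).1.2 → (p k).1.1 i = (p j).1.1 i := by
    intro j k i hjk hi
    induction k, hjk using Nat.le_induction with
    | base => rfl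
    | succ k hk ih =>
      rw [hagree1 k i (lt_of_lt_of_le hi (hlen.monotone hk)), ih]
  let c : ℕ → ℕ := fun i => (p (i + 1)).1.1 i
  have hc : ∀ j i, i < (p j).1.2 → c i = (p j).1.1 i := by
    intro j i hi
    have hi' : i < (p (i + 1)).1.2 := lt_of_lt_of_le (Nat.lt_succ_self i) hlen.le_apply
    rcases le_total j (i + 1) with h | h
    · exact hagree j (i + 1) i h hi
    · exact (hagree (i + 1) j i h hi').symm
  have hcU : ∀ j, c ∈ U j := by
    intro j
    apply h3 j (p j)
    intro i hi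
    rw [← hp] at hi ⊢
    exact hc (j + 1) i hi
  have htend := hG c hcU
  rw [tendsto_atTop_atTop] at htend
  obtain ⟨i0, hi0⟩ := htend (N + 1)
  obtain ⟨i, hi1, hi2, hi3⟩ := h4 i0 (p i0)
  rw [← hp] at hi2 hi3
  have h5 : c i = N := by rw [hc (i0 + 1) i hi2, hi3]
  have h6 : i0 ≤ i := le_trans (hlen.le_apply) hi1
  have h7 := hi0 i h6
  omega

/-- The sequences not tending to infinity do not form an F-sigma-delta set. -/
theorem not_fsd_not_tendsto (C : ℕ → ℕ → Set (ℕ → ℕ)) (hC : ∀ i j, IsClosed (C i j)) :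
    {a : ℕ → ℕ | ¬ Tendsto a atTop atTop} ≠ ⋂ i, ⋃ j, C i j := by
  intro heq
  have hmem : ∀ a : ℕ → ℕ, Tendsto a atTop atTop ↔ ∃ i, ∀ j, a ∈ (C i j)ᶜ := by
    intro a
    have h1 : a ∈ {a : ℕ → ℕ | ¬ Tendsto a atTop atTop} ↔ a ∈ ⋂ i, ⋃ j, C i j := by rw [heq]
    simp only [mem_ofPred_eq, mem_iInter, mem_iUnion] at h1
    simp only [mem_compl_iff]
    constructor
    · intro h
      by_contra hno
      push Not at hno
      exact (h1.mpr hno) h
    · rintro ⟨i, hi⟩
      by_contra hno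
      obtain ⟨j, hj⟩ := h1.mp hno i
      exact hi j hj
  have hstep : ∀ (i : ℕ) (p : (ℕ → ℕ) × ℕ), ∃ q : (ℕ → ℕ) × ℕ, p.2 < q.2 ∧ q.1 ∈ TT i p.1 p.2 ∧
      ∀ b ∈ TT i q.1 q.2, ¬ ∀ j, b ∈ (C i j)ᶜ := by
    intro i p
    obtain ⟨a', n', h1, h2, h3⟩ := inner_step (U := fun j => (C i j)ᶜ)
      (fun j => (hC i j).isOpen_compl) (fun a ha => (hmem a).mpr ⟨i, ha⟩) i p.1 p.2
    refine ⟨(a', n' + 1), by show p.2 < n' + 1; omega, h2, ?_⟩
    intro b hb
    apply h3
    refine ⟨fun k hk => hb.1 k (by show k < n' + 1; omega), fun k hk => ?_⟩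
    by_cases hk' : k = n'
    · have h4 : b k = a' k := hb.1 k (by show k < n' + 1; omega)
      rw [h4]
      exact h2.2 k (by omega)
    · exact hb.2 k (by show n' + 1 ≤ k; omega)
  choose nx h1 h2 h3 using hstep
  let p : ℕ → (ℕ → ℕ) × ℕ := fun i => Nat.rec (fun _ => 0, 0) (fun i p => nx i p) i
  have hp : ∀ i, p (i + 1) = nx i (p i) := fun i => rfl
  have hlen : StrictMono (fun j => (p j).2) := by
    apply strictMono_nat_of_lt_succ
    intro j
    rw [hp]
    exact h1 j (p j)
  have hagree1 : ∀ j i, i < (p j).2 → (p (j + 1)).1 i = (p j).1 i := by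
    intro j i hi
    rw [hp]
    exact (h2 j (p j)).1 i hi
  have hagree : ∀ j k i, j ≤ k → i < (p j).2 → (p k).1 i = (p j).1 i := by
    intro j k i hjk hi
    induction k, hjk using Nat.le_induction with
    | base => rfl
    | succ k hk ih =>
      rw [hagree1 k i (lt_of_lt_of_le hi (hlen.monotone hk)), ih]
  let c : ℕ → ℕ := fun i => (p (i + 1)).1 i
  have hc : ∀ j i, i < (p j).2 → c i = (p j).1 i := by
    intro j i hi
    have hi' : i < (p (i + 1)).2 := lt_of_lt_of_le (Nat.lt_succ_self i) hlen.le_apply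
    rcases le_total j (i + 1) with h | h
    · exact hagree j (i + 1) i h hi
    · exact (hagree (i + 1) j i h hi').symm
  -- lower bounds
  have hlow : ∀ i k, (p i).2 ≤ k → i ≤ c k := by
    intro i k hk
    -- find j ≥ i with (p j).2 ≤ k < (p (j+1)).2
    have hex : ∃ j, k < (p j).2 := ⟨k + 1, lt_of_lt_of_le (Nat.lt_succ_self k) hlen.le_apply⟩
    classical
    have hs := Nat.find_spec hex
    have hj0 : i < Nat.find hex := by
      by_contra hno
      push Not at hno
      have : (p (Nat.find hex)).2 ≤ (p i).2 := hlen.monotone hno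
      omega
    obtain ⟨j, hj⟩ := Nat.exists_eq_succ_of_ne_zero (n := Nat.find hex) (by omega)
    have hmin : (p j).2 ≤ k := by
      have := Nat.find_min hex (m := j) (by omega)
      omega
    rw [hj] at hs
    have h4 : c k = (p (j + 1)).1 k := hc (j + 1) k hs
    rw [h4, hp]
    have h5 := (h2 j (p j)).2 k hmin
    omega
  have hct : Tendsto c atTop atTop := by
    rw [tendsto_atTop_atTop]
    intro i
    exact ⟨(p i).2, fun k hk => hlow i k hk⟩
  obtain ⟨i, hi⟩ := (hmem c).mp hct
  refine h3 i (p i) c ?_ hi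
  rw [← hp]
  constructor
  · intro k hk
    exact hc (i + 1) k hk
  · intro k hk
    have := hlow (i + 1) k hk
    omega

end Pool.Agent.Lib.MP_07734d_lc
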