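import Mathlib
import Pool.Agent.Lib.MP_07734d_lc.FubiniIdeal
import Pool.Agent.Lib.MP_07734d_lc.NotFsd

set_option autoImplicit false

/-!
Descriptive complexity of the Fubini product of the density zero ideal with the ideal of
finite sets.
-/

namespace Pool.Agent.Lib.MP_07734d_lc

open Set Filter Topology

/-- The Fubini product of the density zero ideal and the ideal of finite sets. -/
def J (A : Set ℕ) : Prop := FJ Set.Finite A

/-- The condition defining the reduction. -/
def PP (x : ℕ) (a : ℕ → ℕ) : Prop :=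
  (Nat.unpair (Nat.log 2 (Nat.unpair x).1)).2 < (Nat.unpair x).2 ∧
  a (Nat.unpair (Nat.log 2 (Nat.unpair x).1)).2 ≤ (Nat.unpair (Nat.log 2 (Nat.unpair x).1)).1 ∧
  ∀ r, (Nat.unpair (Nat.log 2 (Nat.unpair x).1)).2 < r → r ≤ (Nat.unpair x).2 →
    (Nat.unpair (Nat.log 2 (Nat.unpair x).1)).1 < a r

open Classical in
/-- The reduction; the value is the characteristic function of the complement. -/
noncomputable def red (a : ℕ → ℕ) : ℕ → Bool := fun x => decide (¬ PP x a)

lemma isClopen_PP (x : ℕ) : IsClopen {a : ℕ → ℕ | PP x a} := by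
  have h1 : ∀ (i : ℕ) (s : Set ℕ), IsClopen {a : ℕ → ℕ | a i ∈ s} := by
    intro i s
    exact (isClopen_discrete s).preimage (continuous_apply i)
  have h2 : {a : ℕ → ℕ | PP x a} =
      {a | (Nat.unpair (Nat.log 2 (Nat.unpair x).1)).2 < (Nat.unpair x).2} ∩
      ({a | a (Nat.unpair (Nat.log 2 (Nat.unpair x).1)).2 ∈
          Iic (Nat.unpair (Nat.log 2 (Nat.unpair x).1)).1} ∩
        ⋂ r ∈ {r | (Nat.unpair (Nat.log 2 (Nat.unpair x).1)).2 < r ∧ r ≤ (Nat.unpair x).2},
          {a | a r ∈ Ioi (Nat.unpair (Nat.log 2 (Nat.unpair x).1)).1}) := by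
    ext a
    simp only [PP, mem_ofPred_eq, mem_inter_iff, mem_iInter, mem_Iic, mem_Ioi, and_imp]
  rw [h2]
  refine IsClopen.inter ?_ (IsClopen.inter (h1 _ _) ?_)
  · by_cases h : (Nat.unpair (Nat.log 2 (Nat.unpair x).1)).2 < (Nat.unpair x).2
    · simp [h, isClopen_univ]
    · simp [h, isClopen_empty]
  · apply Set.Finite.isClopen_biInter
    · exact (Set.finite_Iic (Nat.unpair x).2).subset fun r hr => hr.2
    · intro r _
      exact h1 _ _

lemma continuous_red : Continuous red := by
  classical
  rw [continuous_pi_iff]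
  intro x
  rw [continuous_discrete_rng]
  intro b
  have hc := isClopen_PP x
  cases b
  · have : (fun a => red a x) ⁻¹' {false} = {a | PP x a} := by
      ext a
      simp [red]
    rw [this]
    exact hc.isOpen
  · have : (fun a => red a x) ⁻¹' {true} = {a | PP x a}ᶜ := by
      ext a
      simp [red]
    rw [this]
    exact hc.compl.isOpen

/-- The set of the codes of the infinite pieces. -/
def Inf (a : ℕ → ℕ) : Set ℕ :=
  {e | a (Nat.unpair e).2 ≤ (Nat.unpair e).1 ∧ ∀ r, (Nat.unpair e).2 < r → (Nat.unpair e).1 < a r}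

lemma sec_infinite_iff (a : ℕ → ℕ) (i : ℕ) :
    ¬ (sec {x | PP x a} i).Finite ↔ Nat.log 2 i ∈ Inf a := by
  constructor
  · intro h
    have h' : (sec {x | PP x a} i).Infinite := h
    constructor
    · obtain ⟨s, hs⟩ := h'.nonempty
      have := hs.2.1
      simpa [sec] using this
    · intro r hr
      obtain ⟨s, hs, hrs⟩ := h'.exists_gt r
      have h3 := hs.2.2
      simp only [Nat.unpair_pair] at h3
      exact h3 r hr hrs.le
  · rintro ⟨h1, h2⟩ hfin
    obtain ⟨m, hm⟩ := hfin.bddAbove
    have h3 : max (m + 1) ((Nat.unpair (Nat.log 2 i)).2 + 1) ∈ sec {x | PP x a} i := by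
      show PP _ a
      unfold PP
      simp only [Nat.unpair_pair]
      refine ⟨?_, h1, fun r hr _ => h2 r hr⟩
      exact lt_of_lt_of_le (Nat.lt_succ_self _) (le_max_right _ _)
    have h4 := hm h3
    have h5 := le_max_left (m + 1) ((Nat.unpair (Nat.log 2 i)).2 + 1)
    omega

lemma DZ_log_iff (E : Set ℕ) : DZ {i | Nat.log 2 i ∈ E} ↔ E.Finite := by
  constructor
  · intro h
    by_contra hinf
    have hinf' : E.Infinite := hinf
    obtain ⟨N, hN⟩ := h 3
    obtain ⟨e, he, hNe⟩ := hinf'.exists_gt N
    have h1 : N ≤ 2 ^ (e + 1) := by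
      have h2 : e + 1 < 2 ^ (e + 1) := Nat.lt_two_pow_self
      omega
    have h3 := hN (2 ^ (e + 1)) h1
    have h4 : 2 ^ e ≤ cnt {i | Nat.log 2 i ∈ E} (2 ^ (e + 1)) := by
      calc 2 ^ e = (Finset.Ico (2 ^ e) (2 ^ (e + 1))).card := by
            rw [Nat.card_Ico, pow_succ]; omega
        _ ≤ (cntSet {i | Nat.log 2 i ∈ E} (2 ^ (e + 1))).card := by
            apply Finset.card_le_card
            intro i hi
            rw [Finset.mem_Ico] at hi
            rw [mem_cntSet]
            refine ⟨hi.2, ?_⟩
            show Nat.log 2 i ∈ E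
            rw [Nat.log_eq_of_pow_le_of_lt_pow hi.1 hi.2]
            exact he
    have h5 : 2 ^ (e + 1) = 2 * 2 ^ e := by rw [pow_succ]; ring
    have h6 : 0 < 2 ^ e := by positivity
    omega
  · intro h
    obtain ⟨m, hm⟩ := h.bddAbove
    apply DZ_of_lt (m := 2 ^ (m + 1))
    intro i hi
    have h1 : Nat.log 2 i ≤ m := hm hi
    exact Nat.lt_pow_of_log_lt (by norm_num) (Nat.lt_succ_of_le h1)

lemma Inf_finite_iff (a : ℕ → ℕ) : (Inf a).Finite ↔ ¬ Tendsto a atTop atTop := by
  constructor
  · intro hfin htend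
    -- for every n ≥ a 0 there is an element of Inf a with first coordinate n
    have h1 : ∀ n, a 0 ≤ n → ∃ t, Nat.pair n t ∈ Inf a := by
      intro n hn
      obtain ⟨T, hT⟩ := (tendsto_atTop_atTop.mp htend) (n + 1)
      classical
      let S := (Finset.range (T + 1)).filter (fun t => a t ≤ n)
      have hS : S.Nonempty := ⟨0, by simp [S, hn]⟩
      refine ⟨S.max' hS, ?_⟩
      have h2 := S.max'_mem hS
      constructor
      · simp only [Nat.unpair_pair]
        exact (Finset.mem_filter.mp h2).2
      · intro r hr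
        simp only [Nat.unpair_pair] at hr ⊢
        by_contra hno
        push Not at hno
        have h3 : r < T + 1 := by
          by_contra hrT
          have := hT r (by omega)
          omega
        have h4 : r ∈ S := Finset.mem_filter.mpr ⟨Finset.mem_range.mpr h3, hno⟩
        have h5 := S.le_max' r h4
        omega
    choose! t ht using h1
    have hinj : Set.InjOn (fun n => Nat.pair n (t n)) (Ici (a 0)) := by
      intro n _ m _ hnm
      simp only [Nat.pair_eq_pair] at hnm
      exact hnm.1
    have h2 : ((fun n => Nat.pair n (t n)) '' Ici (a 0)).Finite :=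
      hfin.subset (by rintro _ ⟨n, hn, rfl⟩; exact ht n hn)
    exact (Set.Ici_infinite (a 0)).image hinj h2
  · intro hnt
    rw [tendsto_atTop_atTop] at hnt
    push Not at hnt
    obtain ⟨m, hm⟩ := hnt
    have h1 : ∀ e ∈ Inf a, (Nat.unpair e).1 < m := by
      intro e he
      by_contra hno
      push Not at hno
      obtain ⟨r, hr1, hr2⟩ := hm ((Nat.unpair e).2 + 1)
      have := he.2 r (by omega)
      omega
    have h2 : Set.InjOn (fun e => (Nat.unpair e).1) (Inf a) := by
      intro e he f hf hef
      have hef' : (Nat.unpair e).1 = (Nat.unpair f).1 := hef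
      have h3 : (Nat.unpair e).2 = (Nat.unpair f).2 := by
        rcases lt_trichotomy (Nat.unpair e).2 (Nat.unpair f).2 with h | h | h
        · have h4 := he.2 _ h
          have h5 := hf.1
          omega
        · exact h
        · have h4 := hf.2 _ h
          have h5 := he.1
          omega
      rw [← Nat.pair_unpair e, ← Nat.pair_unpair f, hef', h3]
    exact Set.Finite.of_finite_image ((Set.finite_Iio m).subset (by
      rintro _ ⟨e, he, rfl⟩; exact h1 e he)) h2

/-- The reduction property. -/
lemma J_PP_iff (a : ℕ → ℕ) : J {x | PP x a} ↔ ¬ Tendsto a atTop atTop := by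
  rw [← Inf_finite_iff, ← DZ_log_iff]
  show DZ {n | ¬ (sec {x | PP x a} n).Finite} ↔ _
  have : {n | ¬ (sec {x | PP x a} n).Finite} = {i | Nat.log 2 i ∈ Inf a} := by
    ext i
    exact sec_infinite_iff a i
  rw [this]

/-- Measurability of the ideal. -/
lemma measurableSet_J : MeasurableSet {x : ℕ → Bool | J {n | x n = false}} := by
  have h1 : ∀ n, MeasurableSet {x : ℕ → Bool | ¬ (sec {n | x n = false} n).Finite} := by
    intro n
    have h2 : {x : ℕ → Bool | ¬ (sec {n | x n = false} n).Finite} =
        ⋂ i : ℕ, ⋃ j : ℕ, {x : ℕ → Bool | i ≤ j ∧ x (Nat.pair n j) = false} := by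
      ext x
      simp only [mem_ofPred_eq, mem_iInter, mem_iUnion]
      constructor
      · intro h i
        have h' : (sec {n | x n = false} n).Infinite := h
        obtain ⟨j, hj, hij⟩ := h'.exists_gt i
        exact ⟨j, hij.le, hj⟩
      · intro h hfin
        obtain ⟨m, hm⟩ := hfin.bddAbove
        obtain ⟨j, hj1, hj2⟩ := h (m + 1)
        have := hm (show j ∈ sec {n | x n = false} n from hj2)
        omega
    rw [h2]
    refine MeasurableSet.iInter fun i => MeasurableSet.iUnion fun j => ?_
    by_cases hij : i ≤ j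
    · have h3 : {x : ℕ → Bool | i ≤ j ∧ x (Nat.pair n j) = false} =
          (fun x : ℕ → Bool => x (Nat.pair n j)) ⁻¹' {false} := by
        ext x; simp [hij]
      rw [h3]
      exact measurable_pi_apply _ (measurableSet_singleton _)
    · have h3 : {x : ℕ → Bool | i ≤ j ∧ x (Nat.pair n j) = false} = ∅ := by
        ext x; simp [hij]
      rw [h3]
      exact MeasurableSet.empty
  have h2 : ∀ M, Measurable (fun x : ℕ → Bool =>
      cnt {n | ¬ (sec {n | x n = false} n).Finite} M) := by
    intro M
    classical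
    have h3 : (fun x : ℕ → Bool => cnt {n | ¬ (sec {n | x n = false} n).Finite} M) =
        fun x => ∑ n ∈ Finset.range M,
          if ¬ (sec {n | x n = false} n).Finite then 1 else 0 := by
      funext x
      rw [← Finset.card_filter]
      unfold cnt
      congr 1
      ext n
      rw [mem_cntSet, Finset.mem_filter, Finset.mem_range]
      rfl
    rw [h3]
    apply Finset.measurable_sum
    intro n _
    exact Measurable.ite (h1 n) measurable_const measurable_const
  have h3 : {x : ℕ → Bool | J {n | x n = false}} = ⋂ k : ℕ, ⋃ N : ℕ, ⋂ M : ℕ, ⋂ (_ : N ≤ M),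
      {x : ℕ → Bool | k * cnt {n | ¬ (sec {n | x n = false} n).Finite} M ≤ M} := by
    ext x
    simp only [J, FJ, DZ, mem_ofPred_eq, mem_iInter, mem_iUnion]
  rw [h3]
  refine MeasurableSet.iInter fun k => MeasurableSet.iUnion fun N => MeasurableSet.iInter fun M =>
    MeasurableSet.iInter fun _ => ?_
  exact measurableSet_le (measurable_const.mul (h2 M)) measurable_const

end Pool.Agent.Lib.MP_07734d_lc
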