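import Mathlib

set_option autoImplicit false

/-!
# Definitions for MP_07734d_lc

Measures on Boolean algebras, the Nikodym property, free filters on `ℕ` as subsets of the Cantor
space, `F_{σδ}` sets, and the Boolean algebra `A_F = F ∪ F^*`.
-/

namespace Pool.Agent.Lib.MP_07734d_lc

open Set Filter Topology
open scoped ENNReal NNReal

/-- The total variation of a real-valued function on a Boolean algebra: the supremum of
`∑ |μ a|` over all finite families of pairwise disjoint elements. -/
noncomputable def totalVariation {α : Type*} [BooleanAlgebra α] (μ : α → ℝ) : ℝ≥0∞ :=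
  ⨆ (P : Finset α) (_ : (P : Set α).PairwiseDisjoint id), ∑ a ∈ P, ENNReal.ofReal |μ a|

/-- A measure on a Boolean algebra: a finitely additive real-valued function of bounded total
variation. -/
structure IsMeasure {α : Type*} [BooleanAlgebra α] (μ : α → ℝ) : Prop where
  additive : ∀ a b : α, Disjoint a b → μ (a ⊔ b) = μ a + μ b
  bounded : totalVariation μ < ⊤

/-- The Nikodym property of a Boolean algebra: every sequence of measures which is bounded at
each element of the algebra is bounded in total variation. -/
def HasNikodymProperty (α : Type*) [BooleanAlgebra α] : Prop :=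
  ∀ μ : ℕ → α → ℝ, (∀ n, IsMeasure (μ n)) → (∀ a : α, ∃ C : ℝ, ∀ n, |μ n a| ≤ C) →
    ∃ C : ℝ≥0, ∀ n, totalVariation (μ n) ≤ C

/-- A filter on `ℕ` is free: it contains every cofinite set and no finite set. -/
def IsFree (F : Filter ℕ) : Prop :=
  (∀ s : Set ℕ, sᶜ.Finite → s ∈ F) ∧ ∀ s : Set ℕ, s.Finite → s ∉ F

/-- The subset of the Cantor space `2^ω` which corresponds to the filter `F` through
characteristic functions. -/
def cantorSet (F : Filter ℕ) : Set (ℕ → Bool) := {x | {n | x n = true} ∈ F}

/-- `s` is an `F_{σδ}` set: a countable intersection of countable unions of closed sets. -/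
def IsFSigmaDelta {X : Type*} [TopologicalSpace X] (s : Set X) : Prop :=
  ∃ C : ℕ → ℕ → Set X, (∀ i j, IsClosed (C i j)) ∧ s = ⋂ i, ⋃ j, C i j

/-- The Boolean algebra `A_F = F ∪ F^*` of all sets which belong to `F` or whose complement
belongs to `F`, as a Boolean subalgebra of the power set of `ℕ`. -/
def filterAlgebra (F : Filter ℕ) : BooleanSubalgebra (Set ℕ) where
  carrier := {s | s ∈ F ∨ sᶜ ∈ F}
  supClosed' := by
    rintro a (ha | ha) b (hb | hb)
    · exact Or.inl (mem_of_superset ha subset_union_left)
    · exact Or.inl (mem_of_superset ha subset_union_left)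
    · exact Or.inl (mem_of_superset hb subset_union_right)
    · refine Or.inr ?_
      show (a ∪ b)ᶜ ∈ F
      rw [compl_union]
      exact inter_mem ha hb
  infClosed' := by
    rintro a (ha | ha) b (hb | hb)
    · exact Or.inl (inter_mem ha hb)
    · refine Or.inr (mem_of_superset hb ?_)
      exact compl_subset_compl.mpr inter_subset_right
    · refine Or.inr (mem_of_superset ha ?_)
      exact compl_subset_compl.mpr inter_subset_left
    · refine Or.inr (mem_of_superset ha ?_)
      exact compl_subset_compl.mpr inter_subset_left
  compl_mem' := by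
    rintro a (ha | ha)
    · exact Or.inr (by rwa [compl_compl])
    · exact Or.inl ha
  bot_mem' := Or.inr (by
    show (∅ : Set ℕ)ᶜ ∈ F
    rw [compl_empty]
    exact univ_mem)

end Pool.Agent.Lib.MP_07734d_lc
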