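import Mathlib
import Pool.Agent.Lib.MP_07734d_lc.Defs
import Pool.Agent.Lib.MP_07734d_lc.Complexity

set_option autoImplicit false

/-!
The dual filter of the Fubini product `Z ⊗ Fin` is free, Borel, not `F_{σδ}`, and its algebra
has the Nikodym property.
-/

namespace Pool.Agent.Lib.MP_07734d_lc

open Set Filter Topology
open scoped ENNReal NNReal

/-! ### Auxiliary facts -/

lemma mem_filterAlgebra {F : Filter ℕ} {s : Set ℕ} : s ∈ filterAlgebra F ↔ s ∈ F ∨ sᶜ ∈ F :=
  Iff.rfl

/-- A single value is bounded by the total variation. -/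
lemma le_totalVariation {α : Type*} [BooleanAlgebra α] (μ : α → ℝ) (a : α) :
    ENNReal.ofReal |μ a| ≤ totalVariation μ := by
  classical
  unfold totalVariation
  refine le_trans ?_ (le_iSup₂ (f := fun (P : Finset α) (_ : (P : Set α).PairwiseDisjoint id) =>
    ∑ a ∈ P, ENNReal.ofReal |μ a|) {a} (by simp))
  simp

lemma sum_of_pairwiseDisjoint {α : Type*} [BooleanAlgebra α] {μ : α → ℝ}
    (hadd : ∀ a b : α, Disjoint a b → μ (a ⊔ b) = μ a + μ b) (P : Finset α)
    (hP : (P : Set α).PairwiseDisjoint id) : μ (P.sup id) = ∑ a ∈ P, μ a := by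
  classical
  have h0 : μ ⊥ = 0 := by
    have := hadd ⊥ ⊥ disjoint_bot_left
    simp at this
    exact this
  induction P using Finset.induction_on with
  | empty => simp [h0]
  | insert a s ha ih =>
    rw [Finset.sup_insert, Finset.sum_insert ha, hadd, ih]
    · rfl
    · refine hP.subset ?_
      intro x hx
      exact Finset.mem_insert_of_mem hx
    · rw [Finset.disjoint_sup_right]
      intro b hb
      exact hP (Finset.mem_coe.mpr (Finset.mem_insert_self a s))
        (Finset.mem_coe.mpr (Finset.mem_insert_of_mem hb)) (by rintro rfl; exact ha hb)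

/-- A finitely additive function bounded by `C` has total variation at most `2 C`. -/
lemma totalVariation_le {α : Type*} [BooleanAlgebra α] {μ : α → ℝ}
    (hadd : ∀ a b : α, Disjoint a b → μ (a ⊔ b) = μ a + μ b) {C : ℝ}
    (hC : ∀ a, |μ a| ≤ C) : totalVariation μ ≤ ENNReal.ofReal (2 * C) := by
  classical
  unfold totalVariation
  refine iSup₂_le fun P hP => ?_
  rw [← ENNReal.ofReal_sum_of_nonneg (fun a _ => abs_nonneg _)]
  apply ENNReal.ofReal_le_ofReal
  rw [← Finset.sum_filter_add_sum_filter_not P (fun a => 0 ≤ μ a)]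
  have h1 : ∑ a ∈ P.filter (fun a => 0 ≤ μ a), |μ a| ≤ C := by
    have e1 : ∑ a ∈ P.filter (fun a => 0 ≤ μ a), |μ a| =
        ∑ a ∈ P.filter (fun a => 0 ≤ μ a), μ a :=
      Finset.sum_congr rfl fun a ha => abs_of_nonneg (Finset.mem_filter.mp ha).2
    rw [e1, ← sum_of_pairwiseDisjoint hadd _ (hP.subset (by
      intro x hx
      exact (Finset.mem_filter.mp (Finset.mem_coe.mp hx)).1))]
    exact (le_abs_self _).trans (hC _)
  have h2 : ∑ a ∈ P.filter (fun a => ¬ 0 ≤ μ a), |μ a| ≤ C := by
    have e1 : ∑ a ∈ P.filter (fun a => ¬ 0 ≤ μ a), |μ a| =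
        - ∑ a ∈ P.filter (fun a => ¬ 0 ≤ μ a), μ a := by
      rw [← Finset.sum_neg_distrib]
      exact Finset.sum_congr rfl fun a ha =>
        abs_of_neg (not_le.mp (Finset.mem_filter.mp ha).2)
    rw [e1, ← sum_of_pairwiseDisjoint hadd _ (hP.subset (by
      intro x hx
      exact (Finset.mem_filter.mp (Finset.mem_coe.mp hx)).1))]
    exact (neg_le_abs _).trans (hC _)
  linarith

/-- The dual filter of `Z ⊗ Fin`. -/
def theFilter : Filter ℕ where
  sets := {s | J sᶜ}
  univ_sets := by
    show J (univ : Set ℕ)ᶜ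
    apply FJ_of_forall
    intro n
    have : sec (univ : Set ℕ)ᶜ n = ∅ := by
      ext m
      simp [sec]
    rw [this]
    exact Set.finite_empty
  sets_of_superset := by
    intro s t hs hst
    exact FJ_mono (fun A B h hB => hB.subset h) hs (compl_subset_compl.mpr hst)
  inter_sets := by
    intro s t hs ht
    show J (s ∩ t)ᶜ
    rw [compl_inter]
    exact FJ_union (fun A B hA hB => hA.union hB) hs ht

lemma mem_theFilter {s : Set ℕ} : s ∈ theFilter ↔ J sᶜ := Iff.rfl

lemma theFilter_isFree : IsFree theFilter := by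
  constructor
  · intro s hs
    rw [mem_theFilter]
    apply FJ_of_forall
    intro n
    apply Set.Finite.of_finite_image (f := fun m => Nat.pair n m) (hs.subset ?_)
    · intro a _ b _ hab
      have : Nat.pair n a = Nat.pair n b := hab
      rw [Nat.pair_eq_pair] at this
      exact this.2
    · rintro _ ⟨m, hm, rfl⟩
      exact hm
  · intro s hs hmem
    rw [mem_theFilter] at hmem
    have h1 : DZ {n | ¬ (sec sᶜ n).Finite} := hmem
    have h2 : {n | ¬ (sec sᶜ n).Finite} = univ := by
      rw [eq_univ_iff_forall]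
      intro n hfin
      have h3 : (sec s n).Finite := by
        apply Set.Finite.of_finite_image (f := fun m => Nat.pair n m) (hs.subset ?_)
        · intro a _ b _ hab
          have : Nat.pair n a = Nat.pair n b := hab
          rw [Nat.pair_eq_pair] at this
          exact this.2
        · rintro _ ⟨m, hm, rfl⟩
          exact hm
      have h4 : (univ : Set ℕ) ⊆ sec s n ∪ sec sᶜ n := by
        intro m _
        by_cases hm : Nat.pair n m ∈ s
        · exact Or.inl hm
        · exact Or.inr hm
      exact Set.infinite_univ ((h3.union hfin).subset h4)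
    rw [h2] at h1
    obtain ⟨N, hN⟩ := h1 2
    have h5 := hN (N + 1) (Nat.le_succ N)
    have h6 : cnt (univ : Set ℕ) (N + 1) = N + 1 := by
      have h7 : cntSet (univ : Set ℕ) (N + 1) = Finset.range (N + 1) := by
        ext x
        rw [mem_cntSet, Finset.mem_range]
        simp
      show (cntSet (univ : Set ℕ) (N + 1)).card = N + 1
      rw [h7, Finset.card_range]
    rw [h6] at h5
    omega

lemma cantorSet_theFilter : cantorSet theFilter = {x : ℕ → Bool | J {n | x n = false}} := by
  ext x
  show J {n | x n = true}ᶜ ↔ J {n | x n = false}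
  have : {n | x n = true}ᶜ = {n | x n = false} := by
    ext n
    simp
  rw [this]

lemma theFilter_borel : @MeasurableSet (ℕ → Bool) (borel (ℕ → Bool)) (cantorSet theFilter) := by
  rw [cantorSet_theFilter, ← BorelSpace.measurable_eq (α := ℕ → Bool)]
  exact measurableSet_J

lemma theFilter_not_fsd : ¬ IsFSigmaDelta (cantorSet theFilter) := by
  rintro ⟨C, hC, heq⟩
  apply not_fsd_not_tendsto (fun i j => red ⁻¹' (C i j))
    (fun i j => (hC i j).preimage continuous_red)
  have h1 : {a : ℕ → ℕ | ¬ Tendsto a atTop atTop} = red ⁻¹' (cantorSet theFilter) := by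
    ext a
    rw [cantorSet_theFilter]
    show ¬ Tendsto a atTop atTop ↔ J {n | red a n = false}
    rw [← J_PP_iff]
    have : {n | red a n = false} = {x | PP x a} := by
      ext x
      simp [red]
    rw [this]
  rw [h1, heq, preimage_iInter]
  congr 1
  funext i
  rw [preimage_iUnion]

lemma theFilter_nikodym : HasNikodymProperty (filterAlgebra theFilter) := by
  classical
  intro μ hμ hpt
  -- extend by zero to all sets
  let ν : ℕ → Set ℕ → ℝ := fun k A =>
    if h : A ∈ filterAlgebra theFilter then μ k ⟨A, h⟩ else 0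
  have hJmem : ∀ A : Set ℕ, J A → A ∈ filterAlgebra theFilter := by
    intro A hA
    refine mem_filterAlgebra.mpr (Or.inr ?_)
    rw [mem_theFilter, compl_compl]
    exact hA
  have hν : ∀ k (A : filterAlgebra theFilter), ν k A = μ k A := by
    intro k A
    show (if h : (A : Set ℕ) ∈ filterAlgebra theFilter then μ k ⟨A, h⟩ else 0) = μ k A
    rw [dif_pos A.2]
  have hbddk : ∀ k, ∃ C : ℝ, ∀ a, |μ k a| ≤ C := by
    intro k
    refine ⟨(totalVariation (μ k)).toReal, fun a => ?_⟩
    have h1 := le_totalVariation (μ k) a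
    have h2 := ENNReal.toReal_mono (hμ k).bounded.ne h1
    rwa [ENNReal.toReal_ofReal (abs_nonneg _)] at h2
  obtain ⟨C, hC⟩ := nikodym_fubini (K := Set.Finite) Set.finite_empty
    (fun A B h hB => hB.subset h) (fun A B hA hB => hA.union hB) ν
    (by
      intro k A B hA hB hAB
      have hA' := hJmem A hA
      have hB' := hJmem B hB
      have h1 := (hμ k).additive ⟨A, hA'⟩ ⟨B, hB'⟩ (by
        rw [disjoint_iff]
        apply Subtype.ext
        exact disjoint_iff.mp hAB)
      rw [← hν, ← hν, ← hν] at h1
      exact h1)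
    (by
      intro k
      obtain ⟨C, hC⟩ := hbddk k
      refine ⟨C, fun A hA => ?_⟩
      have h1 := hC ⟨A, hJmem A hA⟩
      rw [← hν] at h1
      exact h1)
    (by
      intro A hA
      obtain ⟨C, hC⟩ := hpt ⟨A, hJmem A hA⟩
      refine ⟨C, fun k => ?_⟩
      have h1 := hC k
      rw [← hν] at h1
      exact h1)
  obtain ⟨D, hD⟩ := hpt ⊤
  have hD0 : 0 ≤ D := (abs_nonneg _).trans (hD 0)
  have hCD : ∀ k a, |μ k a| ≤ D + C := by
    intro k a
    rcases mem_filterAlgebra.mp a.2 with h | h
    · have h1 : (μ k) (a ⊔ aᶜ) = μ k a + μ k aᶜ := (hμ k).additive a aᶜ disjoint_compl_right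
      rw [sup_compl_eq_top] at h1
      have h2 : |μ k aᶜ| ≤ C := by
        rw [← hν]
        apply hC k
        exact h
      have h3 := hD k
      have h4 : μ k a = μ k ⊤ - μ k aᶜ := by linarith
      rw [h4]
      exact (abs_sub _ _).trans (by linarith)
    · have h2 : |μ k a| ≤ C := by
        rw [← hν]
        apply hC k
        have h3 : J (a : Set ℕ)ᶜᶜ := h
        rwa [compl_compl] at h3
      linarith
  refine ⟨(2 * (D + C)).toNNReal, fun k => ?_⟩
  exact totalVariation_le (hμ k).additive (hCD k)

end Pool.Agent.Lib.MP_07734d_lc
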